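import Mathlib

/-! The divisor bound `τ(n) ≤ C n^ε`, and sums over products lying in a well-spaced set. -/

set_option autoImplicit false

namespace Pool.Agent.Helper92.Field

open Finset

/-- Divisor bound. -/
theorem divisor_bound {ε : ℝ} (hε : 0 < ε) :
    ∃ C : ℝ, 0 < C ∧ ∀ n : ℕ, n ≠ 0 → (n.divisors.card : ℝ) ≤ C * (n : ℝ) ^ ε := by
  set B : ℝ := (2 : ℝ) ^ (1 / ε) with hB
  set A : ℝ := max 1 (1 / (ε * Real.log 2)) with hA
  have hA1 : 1 ≤ A := le_max_left _ _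
  have hlog2 : 0 < Real.log 2 := Real.log_pos (by norm_num)
  refine ⟨A ^ ⌈B⌉₊, by positivity, ?_⟩
  intro n hn
  rw [Nat.card_divisors hn]
  push_cast
  have hfac : ∀ p ∈ n.primeFactors, ((n.factorization p : ℝ) + 1)
      ≤ (if (p : ℝ) < B then A else 1) * (((p : ℝ) ^ (n.factorization p)) ^ ε) := by
    intro p hp
    have hp2 : 2 ≤ p := (Nat.prime_of_mem_primeFactors hp).two_le
    have hp2R : (2 : ℝ) ≤ p := by exact_mod_cast hp2
    set k := n.factorization p with hk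
    have hkpow : ((p : ℝ) ^ k) ^ ε = ((p : ℝ) ^ ε) ^ k := by
      rw [← Real.rpow_natCast, ← Real.rpow_natCast, ← Real.rpow_mul (by positivity),
        ← Real.rpow_mul (by positivity), mul_comm]
    rw [hkpow]
    split_ifs with h
    · -- small primes
      have h1 : (2 : ℝ) ^ ε ≤ (p : ℝ) ^ ε := Real.rpow_le_rpow (by norm_num) hp2R hε.le
      have h2 : 1 + ε * Real.log 2 * k ≤ ((2 : ℝ) ^ ε) ^ k := by
        have h3 : ((2 : ℝ) ^ ε) ^ k = Real.exp (ε * Real.log 2 * k) := by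
          rw [Real.rpow_def_of_pos (by norm_num), ← Real.exp_nat_mul]
          congr 1; ring
        rw [h3]
        have := Real.add_one_le_exp (ε * Real.log 2 * k)
        linarith
      have h4 : (k : ℝ) + 1 ≤ A * (1 + ε * Real.log 2 * k) := by
        have h5 : 1 ≤ A * (ε * Real.log 2) := by
          have h6 : 1 / (ε * Real.log 2) ≤ A := le_max_right _ _
          rw [div_le_iff₀ (by positivity)] at h6
          exact h6
        have hk0 : (0 : ℝ) ≤ k := by positivity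
        nlinarith
      calc (k : ℝ) + 1 ≤ A * (1 + ε * Real.log 2 * k) := h4
        _ ≤ A * ((2 : ℝ) ^ ε) ^ k := by gcongr
        _ ≤ A * ((p : ℝ) ^ ε) ^ k := by gcongr
    · push Not at h
      have h1 : (2 : ℝ) ≤ (p : ℝ) ^ ε := by
        calc (2 : ℝ) = B ^ ε := by
              rw [hB, ← Real.rpow_mul (by norm_num), one_div, inv_mul_cancel₀ hε.ne', Real.rpow_one]
          _ ≤ (p : ℝ) ^ ε := Real.rpow_le_rpow (by positivity) h hε.le
      rw [one_mul]
      calc (k : ℝ) + 1 ≤ 2 ^ k := by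
            have : k + 1 ≤ 2 ^ k := Nat.lt_two_pow_self
            exact_mod_cast this
        _ ≤ ((p : ℝ) ^ ε) ^ k := by gcongr
  calc ∏ p ∈ n.primeFactors, ((n.factorization p : ℝ) + 1)
      ≤ ∏ p ∈ n.primeFactors,
          (if (p : ℝ) < B then A else 1) * (((p : ℝ) ^ (n.factorization p)) ^ ε) := by
        apply Finset.prod_le_prod
        · intro p _; positivity
        · exact hfac
    _ = (∏ p ∈ n.primeFactors, (if (p : ℝ) < B then A else 1))
          * ∏ p ∈ n.primeFactors, (((p : ℝ) ^ (n.factorization p)) ^ ε) := by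
        rw [Finset.prod_mul_distrib]
    _ ≤ A ^ ⌈B⌉₊ * (n : ℝ) ^ ε := by
        apply mul_le_mul
        · rw [Finset.prod_ite, Finset.prod_const, Finset.prod_const_one, mul_one]
          apply pow_le_pow_right₀ hA1
          have hsub : (n.primeFactors.filter fun p : ℕ => (p : ℝ) < B) ⊆ range ⌈B⌉₊ := by
            intro p hp
            rw [mem_filter] at hp
            rw [mem_range]
            exact Nat.lt_ceil.mpr hp.2
          calc _ ≤ (range ⌈B⌉₊).card := card_le_card hsub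
            _ = _ := card_range _
        · rw [Real.finsetProd_rpow _ _ (fun p _ => by positivity)]
          apply le_of_eq
          congr 1
          have h1 := Nat.prod_factorization_pow_eq_self hn
          rw [Nat.prod_factorization_eq_prod_primeFactors] at h1
          exact_mod_cast h1
        · apply Finset.prod_nonneg
          intro p _
          positivity
        · positivity

/-- Sum over pairs `(a,b)` with product in a well-spaced set. -/
theorem sum_pairs {ε : ℝ} (hε : 0 < ε) : ∃ C : ℝ, 0 < C ∧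
    ∀ (𝒩 : Set ℕ) (G X : ℝ), 1 ≤ G → 0 ≤ X → (∀ n ∈ 𝒩, G ≤ (n : ℝ)) →
      (∀ n ∈ 𝒩, ∀ n' ∈ 𝒩, n < n' → G ≤ (n' : ℝ) - n) →
      ∀ P : Finset (ℕ × ℕ), (∀ x ∈ P, x.1 * x.2 ∈ 𝒩 ∧ ((x.1 * x.2 : ℕ) : ℝ) ≤ X) →
        ∑ x ∈ P, 1 / ((x.1 * x.2 : ℕ) : ℝ) ≤ C * X ^ (2 * ε) / G := by
  obtain ⟨C0, hC0, hdiv⟩ := divisor_bound hε
  have hsum : Summable fun j : ℕ => (j : ℝ) ^ (-(1 + ε)) := by
    rw [Real.summable_nat_rpow]; linarith
  set Z := ∑' j : ℕ, (j : ℝ) ^ (-(1 + ε)) with hZ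
  have hZ0 : 0 ≤ Z := tsum_nonneg fun j => by positivity
  refine ⟨C0 * (Z + 1), by positivity, ?_⟩
  intro 𝒩 G X hG hX h1 h2 P hP
  have hGpos : 0 < G := by linarith
  set I := P.image (fun x => x.1 * x.2) with hI
  have hI𝒩 : ∀ n ∈ I, n ∈ 𝒩 ∧ (n : ℝ) ≤ X := by
    intro n hn
    rw [hI, mem_image] at hn
    obtain ⟨x, hx, rfl⟩ := hn
    exact hP x hx
  have hstep1 : ∑ x ∈ P, 1 / ((x.1 * x.2 : ℕ) : ℝ) ≤ ∑ n ∈ I, (n.divisors.card : ℝ) * (1 / (n : ℝ)) := by
    rw [← Finset.sum_fiberwise_of_maps_to (t := I) (g := fun x => x.1 * x.2)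
      (fun x hx => mem_image_of_mem _ hx)]
    apply Finset.sum_le_sum
    intro n hn
    have hnpos : n ≠ 0 := by
      have h3 := h1 n (hI𝒩 n hn).1
      intro h0
      rw [h0] at h3
      norm_num at h3
      linarith
    calc ∑ x ∈ P.filter (fun x => x.1 * x.2 = n), 1 / ((x.1 * x.2 : ℕ) : ℝ)
        = ∑ x ∈ P.filter (fun x => x.1 * x.2 = n), 1 / (n : ℝ) := by
          apply Finset.sum_congr rfl
          intro x hx
          rw [mem_filter] at hx
          rw [hx.2]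
      _ = ((P.filter (fun x => x.1 * x.2 = n)).card : ℝ) * (1 / (n : ℝ)) := by
          rw [sum_const, nsmul_eq_mul]
      _ ≤ (n.divisors.card : ℝ) * (1 / (n : ℝ)) := by
          apply mul_le_mul_of_nonneg_right _ (by positivity)
          have hsub : P.filter (fun x => x.1 * x.2 = n) ⊆ n.divisorsAntidiagonal := by
            intro x hx
            rw [mem_filter] at hx
            rw [Nat.mem_divisorsAntidiagonal]
            exact ⟨hx.2, hnpos⟩
          have h3 := card_le_card hsub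
          rw [← Nat.map_div_right_divisors, card_map] at h3
          exact_mod_cast h3
  have hstep2 : ∀ n ∈ I, (n.divisors.card : ℝ) * (1 / (n : ℝ))
      ≤ (C0 * X ^ (2 * ε) / G) * ((⌊(n : ℝ) / G⌋₊ : ℝ) ^ (-(1 + ε))) := by
    intro n hn
    obtain ⟨hn1, hn2⟩ := hI𝒩 n hn
    have hGn := h1 n hn1
    have hnR : 0 < (n : ℝ) := by linarith
    have hnpos : n ≠ 0 := by intro h0; rw [h0] at hnR; norm_num at hnR
    have hX0 : 0 < X := by linarith
    have hfloor : 1 ≤ ⌊(n : ℝ) / G⌋₊ := by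
      rw [Nat.one_le_floor_iff, le_div_iff₀ hGpos]; linarith
    have hfloorR : (1 : ℝ) ≤ (⌊(n : ℝ) / G⌋₊ : ℝ) := by exact_mod_cast hfloor
    have hfl : G * (⌊(n : ℝ) / G⌋₊ : ℝ) ≤ n := by
      have h3 := Nat.floor_le (a := (n : ℝ) / G) (by positivity)
      rw [le_div_iff₀ hGpos] at h3
      linarith
    calc (n.divisors.card : ℝ) * (1 / (n : ℝ)) ≤ (C0 * (n : ℝ) ^ ε) * (1 / (n : ℝ)) := by
          have := hdiv n hnpos
          gcongr
      _ = C0 * ((n : ℝ) ^ (2 * ε) * (n : ℝ) ^ (-(1 + ε))) := by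
          rw [← Real.rpow_add hnR, mul_assoc]
          congr 1
          rw [one_div, ← Real.rpow_neg_one, ← Real.rpow_add hnR]
          congr 1
          ring
      _ ≤ C0 * (X ^ (2 * ε) * (G * (⌊(n : ℝ) / G⌋₊ : ℝ)) ^ (-(1 + ε))) := by
          have h4 : (n : ℝ) ^ (2 * ε) ≤ X ^ (2 * ε) := Real.rpow_le_rpow hnR.le hn2 (by linarith)
          have h5 : (n : ℝ) ^ (-(1 + ε)) ≤ (G * (⌊(n : ℝ) / G⌋₊ : ℝ)) ^ (-(1 + ε)) :=
            Real.rpow_le_rpow_of_nonpos (by positivity) hfl (by linarith)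
          gcongr
      _ = C0 * X ^ (2 * ε) * (G ^ (-(1 + ε)) * (⌊(n : ℝ) / G⌋₊ : ℝ) ^ (-(1 + ε))) := by
          rw [Real.mul_rpow hGpos.le (by positivity)]; ring
      _ ≤ C0 * X ^ (2 * ε) * (G ^ (-1 : ℝ) * (⌊(n : ℝ) / G⌋₊ : ℝ) ^ (-(1 + ε))) := by
          have h6 : G ^ (-(1 + ε)) ≤ G ^ (-1 : ℝ) :=
            Real.rpow_le_rpow_of_exponent_le hG (by linarith)
          gcongr
      _ = _ := by rw [Real.rpow_neg_one]; ring
  have hinj : Set.InjOn (fun n : ℕ => ⌊(n : ℝ) / G⌋₊) (I : Set ℕ) := by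
    have key : ∀ n ∈ I, ∀ n' ∈ I, n < n' → ⌊(n : ℝ) / G⌋₊ < ⌊(n' : ℝ) / G⌋₊ := by
      intro n hn n' hn' hlt
      have h3 := h2 n (hI𝒩 n hn).1 n' (hI𝒩 n' hn').1 hlt
      have h4 : (n : ℝ) / G + 1 ≤ (n' : ℝ) / G := by
        rw [div_add_one hGpos.ne']
        gcongr
        linarith
      have h5 : ⌊(n : ℝ) / G⌋₊ + 1 ≤ ⌊(n' : ℝ) / G⌋₊ := by
        rw [← Nat.floor_add_one (by positivity)]
        exact Nat.floor_le_floor h4
      omega
    intro n hn n' hn' h
    rw [Finset.mem_coe] at hn hn'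
    simp only at h
    rcases lt_trichotomy n n' with h3 | h3 | h3
    · have := key n hn n' hn' h3; omega
    · exact h3
    · have := key n' hn' n hn h3; omega
  calc ∑ x ∈ P, 1 / ((x.1 * x.2 : ℕ) : ℝ) ≤ ∑ n ∈ I, (n.divisors.card : ℝ) * (1 / (n : ℝ)) := hstep1
    _ ≤ ∑ n ∈ I, (C0 * X ^ (2 * ε) / G) * ((⌊(n : ℝ) / G⌋₊ : ℝ) ^ (-(1 + ε))) :=
        Finset.sum_le_sum hstep2
    _ = (C0 * X ^ (2 * ε) / G) * ∑ j ∈ I.image (fun n : ℕ => ⌊(n : ℝ) / G⌋₊), (j : ℝ) ^ (-(1 + ε)) := by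
        rw [Finset.sum_image hinj, Finset.mul_sum]
    _ ≤ (C0 * X ^ (2 * ε) / G) * Z := by
        apply mul_le_mul_of_nonneg_left _ (by positivity)
        exact hsum.sum_le_tsum _ (fun j _ => by positivity)
    _ ≤ C0 * (Z + 1) * X ^ (2 * ε) / G := by
        have : 0 ≤ C0 * X ^ (2 * ε) / G := by positivity
        calc (C0 * X ^ (2 * ε) / G) * Z ≤ (C0 * X ^ (2 * ε) / G) * (Z + 1) := by gcongr; linarith
          _ = _ := by ring

end Pool.Agent.Helper92.Field
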