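import Mathlib

/-! A finite large sieve inequality and its consequence for counting integer vectors `a` in a box
with `a · x` close to an integer. -/

set_option autoImplicit false

namespace Pool.Agent.Helper92.Field

open Finset

section LS

variable {m T : ℕ} [NeZero T]

/-- The character `a ↦ ψ(a · b)` of `(ZMod T)^m`. -/
noncomputable def chi (a b : Fin m → ZMod T) : ℂ := ∏ i, (ZMod.stdAddChar (N := T) (a i * b i) : ℂ)

lemma sum_chi (b : Fin m → ZMod T) :
    ∑ a : Fin m → ZMod T, chi a b = if b = 0 then (T : ℂ) ^ m else 0 := by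
  have h1 : ∑ a : Fin m → ZMod T, chi a b
      = ∏ i : Fin m, ∑ x : ZMod T, (ZMod.stdAddChar (N := T) (x * b i) : ℂ) := by
    rw [Finset.prod_univ_sum]
    simp only [Fintype.piFinset_univ]
    rfl
  rw [h1]
  have h2 : ∀ i : Fin m, ∑ x : ZMod T, (ZMod.stdAddChar (N := T) (x * b i) : ℂ)
      = if b i = 0 then (T : ℂ) else 0 := by
    intro i
    have := AddChar.sum_mulShift (R := ZMod T) (R' := ℂ) (b i) (ZMod.isPrimitive_stdAddChar T)
    rw [this, ZMod.card]
    split_ifs <;> simp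
  simp_rw [h2]
  split_ifs with hb
  · subst hb; simp
  · obtain ⟨i, hi⟩ : ∃ i, b i ≠ 0 := by
      by_contra h
      push Not at h
      exact hb (funext h)
    apply Finset.prod_eq_zero (mem_univ i)
    rw [if_neg hi]

lemma chi_conj (a b b' : Fin m → ZMod T) :
    chi a b * (starRingEnd ℂ) (chi a b') = chi a (b - b') := by
  unfold chi
  rw [map_prod, ← Finset.prod_mul_distrib]
  apply Finset.prod_congr rfl
  intro i _
  rw [← AddChar.map_neg_eq_conj, ← AddChar.map_add_eq_mul, Pi.sub_apply]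
  congr 1
  ring

/-- Parseval-type inequality. -/
lemma large_sieve {ι : Type*} (J : Finset ι) (b : ι → Fin m → ZMod T) (c : ι → ℂ)
    (hc : ∀ j ∈ J, ‖c j‖ ≤ 1) :
    ∑ a : Fin m → ZMod T, ‖∑ j ∈ J, c j * chi a (b j)‖ ^ 2
      ≤ (T : ℝ) ^ m * ((((J ×ˢ J).filter fun x => b x.1 = b x.2).card : ℕ) : ℝ) := by
  classical
  have hexp : ((∑ a : Fin m → ZMod T, ‖∑ j ∈ J, c j * chi a (b j)‖ ^ 2 : ℝ) : ℂ)
      = ∑ x ∈ J ×ˢ J, c x.1 * (starRingEnd ℂ) (c x.2) *
          (if b x.1 = b x.2 then (T : ℂ) ^ m else 0) := by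
    push_cast
    have h1 : ∀ a : Fin m → ZMod T, ((‖∑ j ∈ J, c j * chi a (b j)‖ : ℝ) : ℂ) ^ 2
        = ∑ x ∈ J ×ˢ J, c x.1 * (starRingEnd ℂ) (c x.2) * chi a (b x.1 - b x.2) := by
      intro a
      rw [← Complex.mul_conj', map_sum, Finset.sum_mul_sum, Finset.sum_product]
      apply Finset.sum_congr rfl
      intro j _
      apply Finset.sum_congr rfl
      intro j' _
      rw [map_mul, ← chi_conj]
      ring
    simp_rw [h1]
    rw [Finset.sum_comm]
    apply Finset.sum_congr rfl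
    intro x _
    rw [← Finset.mul_sum, sum_chi]
    simp only [sub_eq_zero]
  have hre : (∑ a : Fin m → ZMod T, ‖∑ j ∈ J, c j * chi a (b j)‖ ^ 2 : ℝ)
      ≤ ‖∑ x ∈ J ×ˢ J, c x.1 * (starRingEnd ℂ) (c x.2) *
          (if b x.1 = b x.2 then (T : ℂ) ^ m else 0)‖ := by
    rw [← hexp, Complex.norm_real]
    exact le_abs_self _
  refine hre.trans ((norm_sum_le _ _).trans ?_)
  calc ∑ x ∈ J ×ˢ J, ‖c x.1 * (starRingEnd ℂ) (c x.2) * (if b x.1 = b x.2 then (T : ℂ) ^ m else 0)‖
      ≤ ∑ x ∈ J ×ˢ J, (if b x.1 = b x.2 then (T : ℝ) ^ m else 0) := by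
        apply Finset.sum_le_sum
        intro x hx
        rw [mem_product] at hx
        split_ifs with h
        · rw [norm_mul, norm_mul, RCLike.norm_conj, norm_pow, Complex.norm_natCast]
          have h1 := hc _ hx.1
          have h2 := hc _ hx.2
          have h3 : ‖c x.1‖ * ‖c x.2‖ ≤ 1 := by
            calc ‖c x.1‖ * ‖c x.2‖ ≤ 1 * 1 := mul_le_mul h1 h2 (norm_nonneg _) (by norm_num)
              _ = 1 := one_mul 1
          calc ‖c x.1‖ * ‖c x.2‖ * (T : ℝ) ^ m ≤ 1 * (T : ℝ) ^ m := by gcongr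
            _ = _ := one_mul _
        · simp
    _ = (T : ℝ) ^ m * ((((J ×ˢ J).filter fun x => b x.1 = b x.2).card : ℕ) : ℝ) := by
        rw [← Finset.sum_filter, Finset.sum_const, nsmul_eq_mul, mul_comm]

end LS

/-- `e(t) = exp(2πit)`. -/
noncomputable def e (t : ℝ) : ℂ := Complex.exp (2 * Real.pi * Complex.I * t)

lemma e_add (s t : ℝ) : e (s + t) = e s * e t := by
  unfold e; rw [← Complex.exp_add]; congr 1; push_cast; ring

lemma e_int (n : ℤ) : e n = 1 := by
  unfold e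
  have : (2 * Real.pi * Complex.I * ((n : ℝ) : ℂ)) = n * (2 * Real.pi * Complex.I) := by
    push_cast; ring
  rw [this]
  exact Complex.exp_int_mul_two_pi_mul_I n

lemma norm_e (t : ℝ) : ‖e t‖ = 1 := by
  unfold e
  have : (2 * Real.pi * Complex.I * (t : ℂ)) = ((2 * Real.pi * t : ℝ) : ℂ) * Complex.I := by
    push_cast; ring
  rw [this, Complex.norm_exp_ofReal_mul_I]

lemma re_e_ge {t : ℝ} (ht : |t| ≤ 1 / 6) : 1 / 2 ≤ (e t).re := by
  unfold e
  have : (2 * Real.pi * Complex.I * (t : ℂ)) = ((2 * Real.pi * t : ℝ) : ℂ) * Complex.I := by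
    push_cast; ring
  rw [this, Complex.exp_ofReal_mul_I_re, ← Real.cos_pi_div_three, ← Real.cos_abs (2 * Real.pi * t)]
  apply Real.cos_le_cos_of_nonneg_of_le_pi (abs_nonneg _)
  · linarith [Real.pi_pos]
  · rw [abs_mul, abs_of_pos (by positivity : 0 < 2 * Real.pi)]
    calc 2 * Real.pi * |t| ≤ 2 * Real.pi * (1 / 6) := by gcongr
      _ = Real.pi / 3 := by ring

lemma chi_eq {m T : ℕ} [NeZero T] (a b : Fin m → ℤ) :
    chi (T := T) (fun i => (a i : ZMod T)) (fun i => (b i : ZMod T))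
      = e ((∑ i, (a i : ℝ) * b i) / T) := by
  unfold chi e
  have h1 : ∀ i, (ZMod.stdAddChar (N := T) ((a i : ZMod T) * (b i : ZMod T)) : ℂ)
      = Complex.exp (2 * Real.pi * Complex.I * ((a i * b i : ℤ) : ℂ) / T) := by
    intro i
    rw [← ZMod.stdAddChar_coe]
    push_cast
    rfl
  simp_rw [h1]
  rw [← Complex.exp_sum]
  congr 1
  push_cast
  rw [Finset.sum_div, Finset.mul_sum]
  apply Finset.sum_congr rfl
  intro i _
  ring

end Pool.Agent.Helper92.Field
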