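import Mathlib
import Pool.Agent.Helper92.Field.LS

/-! Transference inequality: counting integer vectors `a` in a box with `a · x` close to an integer
(after a shift) in terms of the number of multiples of `x` that are close to integer vectors. -/

set_option autoImplicit false

namespace Pool.Agent.Helper92.Field

open Finset

open Classical in
/-- Rational version of the transference inequality. -/
lemma transference_rat {m T K ρ H : ℕ} [NeZero T] (X : Fin m → ℤ) (y δ : ℝ)
    (S : Finset (Fin m → ℤ))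
    (hS : ∀ a ∈ S, (∀ i, |a i| ≤ (H : ℤ)) ∧ ∃ n : ℤ, |(∑ i, (a i : ℝ) * X i) / T + y - n| ≤ δ)
    (hK : 0 < K) (hδ : 12 * K * δ ≤ 1) (hρ : 12 * m * H * ρ ≤ T) (hρT : ρ < T) (hHT : 2 * H < T) :
    (S.card : ℝ) * K * ((ρ : ℝ) + 1) ^ m ≤ 4 * (T : ℝ) ^ m *
      ((((Ioo (-(K : ℤ)) K).filter fun l => ∀ i, ∃ s : ℤ, |s| ≤ (ρ : ℤ) ∧
        (T : ℤ) ∣ l * X i - s).card : ℕ) : ℝ) := by
  have hTpos : (0 : ℝ) < T := by exact_mod_cast (NeZero.pos T)
  have hKR : (0 : ℝ) < K := by exact_mod_cast hK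
  set J : Finset (ℕ × (Fin m → ℕ)) := range K ×ˢ Fintype.piFinset fun _ : Fin m => range (ρ + 1)
    with hJ
  have hJcard : (J.card : ℝ) = K * ((ρ : ℝ) + 1) ^ m := by
    rw [hJ, card_product, card_range, Fintype.card_piFinset_const, card_range]
    push_cast
    ring
  set bZ : ℕ × (Fin m → ℕ) → Fin m → ℤ := fun j i => (j.2 i : ℤ) + j.1 * X i with hbZ
  set b : ℕ × (Fin m → ℕ) → Fin m → ZMod T := fun j i => ((bZ j i : ℤ) : ZMod T) with hb
  set c : ℕ × (Fin m → ℕ) → ℂ := fun j => e (j.1 * y) with hc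
  set f : (Fin m → ℤ) → (Fin m → ZMod T) := fun a i => ((a i : ℤ) : ZMod T) with hf
  -- Step 1
  have h1 : ∀ a ∈ S, (K * ((ρ : ℝ) + 1) ^ m) / 2 ≤ ‖∑ j ∈ J, c j * chi (f a) (b j)‖ := by
    intro a ha
    obtain ⟨hbox, n, hn⟩ := hS a ha
    set z : ℝ := (∑ i, (a i : ℝ) * X i) / T + y - n with hz
    have hterm : ∀ j ∈ J, 1 / 2 ≤ (c j * chi (f a) (b j)).re := by
      intro j hj
      rw [hJ, mem_product, mem_range, Fintype.mem_piFinset] at hj
      have hchi : chi (f a) (b j) = e ((∑ i, (a i : ℝ) * (bZ j i : ℤ)) / T) := chi_eq a (bZ j)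
      have hprod : c j * chi (f a) (b j)
          = e ((j.1 : ℝ) * z + (∑ i, (a i : ℝ) * (j.2 i : ℝ)) / T) := by
        rw [hchi, hc]
        simp only
        rw [← e_add]
        have : (j.1 : ℝ) * y + (∑ i, (a i : ℝ) * ((bZ j i : ℤ) : ℝ)) / T
            = ((j.1 : ℝ) * z + (∑ i, (a i : ℝ) * (j.2 i : ℝ)) / T) + (((j.1 : ℤ) * n : ℤ) : ℝ) := by
          rw [hz]
          have h2 : ∑ i, (a i : ℝ) * ((bZ j i : ℤ) : ℝ)
              = ∑ i, (a i : ℝ) * (j.2 i : ℝ) + j.1 * ∑ i, (a i : ℝ) * X i := by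
            rw [Finset.mul_sum, ← Finset.sum_add_distrib]
            apply Finset.sum_congr rfl
            intro i _
            simp only [hbZ]
            push_cast
            ring
          rw [h2]
          push_cast
          ring
        rw [this, e_add, e_int, mul_one]
      rw [hprod]
      apply re_e_ge
      have h3 : |(j.1 : ℝ) * z| ≤ 1 / 12 := by
        rw [abs_mul, Nat.abs_cast]
        have h4 : (j.1 : ℝ) ≤ K := by exact_mod_cast hj.1.le
        have hδ0 : 0 ≤ δ := (abs_nonneg _).trans hn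
        calc (j.1 : ℝ) * |z| ≤ K * δ := by gcongr
          _ ≤ 1 / 12 := by linarith
      have h5 : |(∑ i, (a i : ℝ) * (j.2 i : ℝ)) / T| ≤ 1 / 12 := by
        rw [abs_div, abs_of_pos hTpos, div_le_iff₀ hTpos]
        calc |∑ i, (a i : ℝ) * (j.2 i : ℝ)| ≤ ∑ i, |(a i : ℝ) * (j.2 i : ℝ)| :=
              Finset.abs_sum_le_sum_abs _ _
          _ ≤ ∑ i : Fin m, (H : ℝ) * ρ := by
              apply Finset.sum_le_sum
              intro i _
              rw [abs_mul, Nat.abs_cast]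
              have h6 : |(a i : ℝ)| ≤ H := by exact_mod_cast hbox i
              have h7 : (j.2 i : ℝ) ≤ ρ := by
                have := hj.2 i
                rw [mem_range] at this
                exact_mod_cast Nat.lt_succ_iff.mp this
              gcongr
          _ = m * H * ρ := by rw [sum_const, card_univ, Fintype.card_fin, nsmul_eq_mul]; ring
          _ ≤ 1 / 12 * T := by
              have : (12 * m * H * ρ : ℝ) ≤ T := by exact_mod_cast hρ
              linarith
      calc |(j.1 : ℝ) * z + (∑ i, (a i : ℝ) * (j.2 i : ℝ)) / T|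
          ≤ |(j.1 : ℝ) * z| + |(∑ i, (a i : ℝ) * (j.2 i : ℝ)) / T| := abs_add_le _ _
        _ ≤ 1 / 6 := by linarith
    calc (K * ((ρ : ℝ) + 1) ^ m) / 2 = ∑ j ∈ J, (1 / 2 : ℝ) := by
          rw [sum_const, nsmul_eq_mul, hJcard]; ring
      _ ≤ ∑ j ∈ J, (c j * chi (f a) (b j)).re := Finset.sum_le_sum hterm
      _ = (∑ j ∈ J, c j * chi (f a) (b j)).re := by rw [Complex.re_sum]
      _ ≤ _ := (le_abs_self _).trans (Complex.abs_re_le_norm _)
  -- Step 2
  have hinj : Set.InjOn f (S : Set (Fin m → ℤ)) := by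
    intro a ha a' ha' haa
    ext i
    have h2 := congrFun haa i
    simp only [hf] at h2
    rw [ZMod.intCast_eq_intCast_iff_dvd_sub] at h2
    have h3 := (hS a ha).1 i
    have h4 := (hS a' ha').1 i
    have h5 : |a' i - a i| < T := by
      calc |a' i - a i| ≤ |a' i| + |a i| := abs_sub _ _
        _ ≤ H + H := add_le_add h4 h3
        _ < T := by have : 2 * (H : ℤ) < T := by exact_mod_cast hHT
                    linarith
    have h6 := Int.eq_zero_of_abs_lt_dvd h2 h5
    omega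
  have h2 : (S.card : ℝ) * ((K * ((ρ : ℝ) + 1) ^ m) / 2) ^ 2
      ≤ ∑ a : Fin m → ZMod T, ‖∑ j ∈ J, c j * chi a (b j)‖ ^ 2 := by
    calc (S.card : ℝ) * ((K * ((ρ : ℝ) + 1) ^ m) / 2) ^ 2
        = ∑ a ∈ S, ((K * ((ρ : ℝ) + 1) ^ m) / 2) ^ 2 := by rw [sum_const, nsmul_eq_mul]
      _ ≤ ∑ a ∈ S, ‖∑ j ∈ J, c j * chi (f a) (b j)‖ ^ 2 := by
          apply Finset.sum_le_sum
          intro a ha
          exact pow_le_pow_left₀ (by positivity) (h1 a ha) 2
      _ = ∑ a ∈ S.image f, ‖∑ j ∈ J, c j * chi a (b j)‖ ^ 2 := by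
          rw [Finset.sum_image hinj]
      _ ≤ _ := Finset.sum_le_sum_of_subset_of_nonneg (subset_univ _) (fun _ _ _ => by positivity)
  have h3 := large_sieve J b c (fun j _ => (norm_e _).le)
  -- Step 3: collisions
  set L := (Ioo (-(K : ℤ)) K).filter fun l => ∀ i, ∃ s : ℤ, |s| ≤ (ρ : ℤ) ∧ (T : ℤ) ∣ l * X i - s
    with hL
  have h4 : ((J ×ˢ J).filter fun x => b x.1 = b x.2).card ≤ ((ρ + 1) ^ m * K) * L.card := by
    set U : Finset ((Fin m → ℕ) × (ℕ × ℤ)) :=
      (Fintype.piFinset fun _ : Fin m => range (ρ + 1)) ×ˢ (range K ×ˢ L) with hU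
    have hUc : U.card = ((ρ + 1) ^ m * K) * L.card := by
      rw [hU, card_product, card_product, Fintype.card_piFinset_const, card_range, card_range]
      ring
    rw [← hUc]
    apply Finset.card_le_card_of_injOn (fun x => (x.1.2, (x.1.1, (x.1.1 : ℤ) - x.2.1)))
    · intro x hx
      rw [Finset.mem_coe, mem_filter, mem_product, hJ, mem_product, mem_product, mem_range, mem_range,
        Fintype.mem_piFinset, Fintype.mem_piFinset] at hx
      obtain ⟨⟨⟨hk, hr⟩, ⟨hk', hr'⟩⟩, hbb⟩ := hx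
      rw [Finset.mem_coe, hU, mem_product, mem_product, Fintype.mem_piFinset, mem_range]
      refine ⟨hr, hk, ?_⟩
      rw [hL, mem_filter, mem_Ioo]
      refine ⟨⟨by simp only; omega, by simp only; omega⟩, ?_⟩
      intro i
      refine ⟨(x.2.2 i : ℤ) - x.1.2 i, ?_, ?_⟩
      · have h5 := hr i
        have h6 := hr' i
        rw [mem_range] at h5 h6
        rw [abs_le]
        constructor <;> omega
      · have h5 := congrFun hbb i
        simp only [hb] at h5
        rw [eq_comm, ZMod.intCast_eq_intCast_iff_dvd_sub] at h5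
        simp only [hbZ] at h5
        have h6 : ((x.1.1 : ℤ) - x.2.1) * X i - ((x.2.2 i : ℤ) - x.1.2 i)
            = (x.1.2 i : ℤ) + x.1.1 * X i - ((x.2.2 i : ℤ) + x.2.1 * X i) := by ring
        simp only
        rw [h6]
        exact h5
    · intro x hx x' hx' hxx
      rw [Finset.mem_coe, mem_filter, mem_product, hJ, mem_product, mem_product, mem_range, mem_range,
        Fintype.mem_piFinset, Fintype.mem_piFinset] at hx hx'
      obtain ⟨⟨⟨hk, hr⟩, ⟨hk', hr'⟩⟩, hbb⟩ := hx
      obtain ⟨⟨⟨gk, gr⟩, ⟨gk', gr'⟩⟩, gbb⟩ := hx'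
      simp only [Prod.mk.injEq] at hxx
      obtain ⟨e1, e2, e3⟩ := hxx
      have e4 : x.2.1 = x'.2.1 := by rw [e2] at e3; omega
      have e5 : x.2.2 = x'.2.2 := by
        ext i
        have h5 := congrFun hbb i
        have h6 := congrFun gbb i
        simp only [hb, hbZ] at h5 h6
        rw [e1, e2] at h5
        rw [h5, e4] at h6
        rw [ZMod.intCast_eq_intCast_iff_dvd_sub] at h6
        have h7 : (x'.2.2 i : ℤ) + x'.2.1 * X i - ((x.2.2 i : ℤ) + x'.2.1 * X i)
            = (x'.2.2 i : ℤ) - x.2.2 i := by ring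
        rw [h7] at h6
        have h8 := hr' i
        have h9 := gr' i
        rw [mem_range] at h8 h9
        have h10 : |(x'.2.2 i : ℤ) - x.2.2 i| < T := by
          rw [abs_lt]; constructor <;> omega
        have := Int.eq_zero_of_abs_lt_dvd h6 h10
        omega
      exact Prod.ext (Prod.ext e2 e1) (Prod.ext e4 e5)
  have h5 : (S.card : ℝ) * ((K * ((ρ : ℝ) + 1) ^ m) / 2) ^ 2
      ≤ (T : ℝ) ^ m * (((ρ : ℝ) + 1) ^ m * K * L.card) := by
    refine h2.trans (h3.trans ?_)
    apply mul_le_mul_of_nonneg_left _ (by positivity)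
    exact_mod_cast h4
  have hpos : 0 < K * ((ρ : ℝ) + 1) ^ m := by positivity
  have h6 : (S.card : ℝ) * K * ((ρ : ℝ) + 1) ^ m * (K * ((ρ : ℝ) + 1) ^ m)
      ≤ 4 * (T : ℝ) ^ m * L.card * (K * ((ρ : ℝ) + 1) ^ m) := by
    nlinarith [h5]
  exact le_of_mul_le_mul_right h6 hpos

end Pool.Agent.Helper92.Field
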