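import Mathlib
import Pool.Agent.Helper92.Field.Trans

/-! Real version of the transference inequality. -/

set_option autoImplicit false

namespace Pool.Agent.Helper92.Field

open Finset

open Classical in
/-- The multiples `l x`, `|l| < K`, of the vector `x` with all coordinates within `τ` of integers. -/
noncomputable def dualSet {m : ℕ} (x : Fin m → ℝ) (K : ℕ) (τ : ℝ) : Finset ℤ :=
  (Ioo (-(K : ℤ)) K).filter fun l => ∀ i, ∃ s : ℤ, |(l : ℝ) * x i - s| ≤ τ

open Classical in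
/-- Transference inequality. -/
lemma transference {m K H : ℕ} (hm : 0 < m) (hK : 0 < K) (hH : 0 < H) (x : Fin m → ℝ) (y : ℝ)
    {δ : ℝ} (hδ0 : 0 < δ) (hδ : 24 * K * δ ≤ 1) (S : Finset (Fin m → ℤ))
    (hS : ∀ a ∈ S, (∀ i, |a i| ≤ (H : ℤ)) ∧ ∃ n : ℤ, |∑ i, (a i : ℝ) * x i + y - n| ≤ δ) :
    (S.card : ℝ) * K ≤ 4 * (12 * m * H) ^ m * ((dualSet x K (1 / (6 * m * H))).card : ℝ) := by
  obtain ⟨ρ0, hρ0⟩ := exists_nat_ge (1 / (12 * δ))
  set ρ := max ρ0 K with hρ
  have hρK : K ≤ ρ := le_max_right _ _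
  have hρpos : 0 < ρ := lt_of_lt_of_le hK hρK
  have hρδ : 1 / (12 * δ) ≤ (ρ : ℝ) := hρ0.trans (by exact_mod_cast le_max_left _ _)
  set T := 12 * m * H * ρ with hT
  have hTpos : 0 < T := by positivity
  have : NeZero T := ⟨hTpos.ne'⟩
  have hTR : (0 : ℝ) < T := by exact_mod_cast hTpos
  have hρR : (0 : ℝ) < ρ := by exact_mod_cast hρpos
  have hmR : (0 : ℝ) < m := by exact_mod_cast hm
  have hHR : (0 : ℝ) < H := by exact_mod_cast hH
  have hTeq : (T : ℝ) = 12 * m * H * ρ := by rw [hT]; push_cast; ring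
  set X : Fin m → ℤ := fun i => ⌊(T : ℝ) * x i⌋ with hX
  have hXx : ∀ i, |(X i : ℝ) / T - x i| ≤ 1 / T := by
    intro i
    have h1 := Int.floor_le ((T : ℝ) * x i)
    have h2 := Int.lt_floor_add_one ((T : ℝ) * x i)
    have h3 : (X i : ℝ) / T - x i = ((X i : ℝ) - T * x i) / T := by field_simp
    rw [h3, abs_div, abs_of_pos hTR]
    apply div_le_div_of_nonneg_right _ hTR.le
    rw [abs_le]
    constructor
    · simp only [hX]; linarith
    · simp only [hX]; linarith
  have hmain := transference_rat (T := T) (K := K) (ρ := ρ) (H := H) X y (2 * δ) S ?_ hK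
    (by linarith) (le_of_eq hT.symm) ?_ ?_
  · have hsub : ((Ioo (-(K : ℤ)) K).filter fun l => ∀ i, ∃ s : ℤ, |s| ≤ (ρ : ℤ) ∧
        (T : ℤ) ∣ l * X i - s) ⊆ dualSet x K (1 / (6 * m * H)) := by
      intro l hl
      rw [mem_filter, mem_Ioo] at hl
      unfold dualSet
      rw [mem_filter, mem_Ioo]
      refine ⟨hl.1, fun i => ?_⟩
      obtain ⟨s, hs, t, ht⟩ := hl.2 i
      refine ⟨t, ?_⟩
      have h1 : (l : ℝ) * X i - s = T * t := by exact_mod_cast ht
      have h2 : (l : ℝ) * x i - t = s / T - l * ((X i : ℝ) / T - x i) := by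
        field_simp
        linarith
      have h3 : |(s : ℝ)| ≤ ρ := by exact_mod_cast hs
      have h4 : |(l : ℝ)| ≤ K := by
        have h5 : |l| ≤ (K : ℤ) := by rw [abs_le]; constructor <;> omega
        exact_mod_cast h5
      rw [h2]
      calc |(s : ℝ) / T - l * ((X i : ℝ) / T - x i)|
          ≤ |(s : ℝ) / T| + |(l : ℝ) * ((X i : ℝ) / T - x i)| := abs_sub _ _
        _ ≤ ρ / T + K * (1 / T) := by
            rw [abs_div, abs_of_pos hTR, abs_mul]
            have := hXx i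
            gcongr
        _ ≤ ρ / T + ρ * (1 / T) := by
            have : (K : ℝ) ≤ ρ := by exact_mod_cast hρK
            gcongr
        _ = 1 / (6 * m * H) := by rw [hTeq]; field_simp; norm_num
    have hcard : ((((Ioo (-(K : ℤ)) K).filter fun l => ∀ i, ∃ s : ℤ, |s| ≤ (ρ : ℤ) ∧
        (T : ℤ) ∣ l * X i - s).card : ℕ) : ℝ) ≤ ((dualSet x K (1 / (6 * m * H))).card : ℝ) := by
      exact_mod_cast card_le_card hsub
    have hpos : (0 : ℝ) < ((ρ : ℝ) + 1) ^ m := by positivity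
    have h5 : (S.card : ℝ) * K * ((ρ : ℝ) + 1) ^ m ≤
        (4 * (12 * m * H) ^ m * ((dualSet x K (1 / (6 * m * H))).card : ℝ)) * ((ρ : ℝ) + 1) ^ m := by
      refine hmain.trans ?_
      calc 4 * (T : ℝ) ^ m * ((((Ioo (-(K : ℤ)) K).filter fun l => ∀ i, ∃ s : ℤ, |s| ≤ (ρ : ℤ) ∧
            (T : ℤ) ∣ l * X i - s).card : ℕ) : ℝ)
          ≤ 4 * (T : ℝ) ^ m * ((dualSet x K (1 / (6 * m * H))).card : ℝ) := by gcongr
        _ = 4 * (12 * m * H) ^ m * ((dualSet x K (1 / (6 * m * H))).card : ℝ) * (ρ : ℝ) ^ m := by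
            rw [hTeq, mul_pow (12 * (m : ℝ) * H)]; ring
        _ ≤ _ := by
            have : (ρ : ℝ) ≤ ρ + 1 := by linarith
            gcongr
    exact le_of_mul_le_mul_right h5 hpos
  · intro a ha
    obtain ⟨hb, n, hn⟩ := hS a ha
    refine ⟨hb, n, ?_⟩
    have h1 : (∑ i, (a i : ℝ) * X i) / T + y - n
        = (∑ i, (a i : ℝ) * x i + y - n) + ∑ i, (a i : ℝ) * ((X i : ℝ) / T - x i) := by
      rw [Finset.sum_div]
      have : ∑ i, (a i : ℝ) * ((X i : ℝ) / T - x i)
          = ∑ i, (a i : ℝ) * X i / T - ∑ i, (a i : ℝ) * x i := by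
        rw [← Finset.sum_sub_distrib]
        apply Finset.sum_congr rfl
        intro i _
        ring
      rw [this]
      ring
    rw [h1]
    have h2 : |∑ i, (a i : ℝ) * ((X i : ℝ) / T - x i)| ≤ δ := by
      calc |∑ i, (a i : ℝ) * ((X i : ℝ) / T - x i)|
          ≤ ∑ i, |(a i : ℝ) * ((X i : ℝ) / T - x i)| := Finset.abs_sum_le_sum_abs _ _
        _ ≤ ∑ i : Fin m, (H : ℝ) * (1 / T) := by
            apply Finset.sum_le_sum
            intro i _
            rw [abs_mul]
            have h3 : |(a i : ℝ)| ≤ H := by exact_mod_cast hb i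
            have := hXx i
            gcongr
        _ = 1 / (12 * ρ) := by
            rw [sum_const, card_univ, Fintype.card_fin, nsmul_eq_mul, hTeq]
            field_simp
        _ ≤ δ := by
            rw [div_le_iff₀ (by positivity)]
            rw [div_le_iff₀ (by positivity)] at hρδ
            linarith
    calc |(∑ i, (a i : ℝ) * x i + y - n) + ∑ i, (a i : ℝ) * ((X i : ℝ) / T - x i)|
        ≤ |∑ i, (a i : ℝ) * x i + y - n| + |∑ i, (a i : ℝ) * ((X i : ℝ) / T - x i)| := abs_add_le _ _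
      _ ≤ 2 * δ := by linarith
  · rw [hT]
    have : 1 ≤ m * H := Nat.mul_pos hm hH
    nlinarith
  · rw [hT]
    have : 1 ≤ m * ρ := Nat.mul_pos hm hρpos
    nlinarith

end Pool.Agent.Helper92.Field
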