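import Mathlib
import Pool.Agent.Helper92.Field.TransReal
import Pool.Agent.Helper92.Field.Divisor
import Pool.Agent.Helper92.Avg.Count
import Pool.Agent.Helper92.Avg.Series

/-! The bound for one denominator `q`. -/

set_option autoImplicit false

namespace Pool.Agent.Helper92.Field

open Finset Pool.Agent.Helper92.Avg

/-- The length of the dual range. -/
noncomputable def Kof (δ : ℝ) : ℕ := max 1 ⌊1 / (24 * δ)⌋₊

open Classical in
/-- Positive multiples `l < K` of the vector `x` close to integer vectors. -/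
noncomputable def posSet {d : ℕ} (x : Fin d → ℝ) (K : ℕ) (τ : ℝ) : Finset ℕ :=
  (range K).filter fun l => 0 < l ∧ ∀ i, ∃ s : ℤ, |(l : ℝ) * x i - s| ≤ τ

lemma card_dualSet_le {d : ℕ} (x : Fin d → ℝ) (K : ℕ) (τ : ℝ) :
    (dualSet x K τ).card ≤ 1 + 2 * (posSet x K τ).card := by
  classical
  have hsub : dualSet x K τ ⊆ {0} ∪ ((posSet x K τ).image (fun l : ℕ => (l : ℤ))
      ∪ (posSet x K τ).image (fun l : ℕ => -(l : ℤ))) := by
    intro l hl
    unfold dualSet at hl
    rw [mem_filter, mem_Ioo] at hl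
    obtain ⟨⟨h1, h2⟩, h3⟩ := hl
    rw [mem_union, mem_union, mem_singleton, mem_image, mem_image]
    rcases lt_trichotomy l 0 with h | h | h
    · right; right
      refine ⟨l.natAbs, ?_, ?_⟩
      · unfold posSet
        rw [mem_filter, mem_range]
        refine ⟨by omega, by omega, fun i => ?_⟩
        obtain ⟨s, hs⟩ := h3 i
        refine ⟨-s, ?_⟩
        have h4 : ((l.natAbs : ℕ) : ℝ) = -(l : ℝ) := by
          have : ((l.natAbs : ℕ) : ℤ) = -l := by omega
          have h5 : (((l.natAbs : ℕ) : ℤ) : ℝ) = ((-l : ℤ) : ℝ) := by rw [this]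
          push_cast at h5
          simpa using h5
        rw [h4]
        push_cast
        have h6 : -(l : ℝ) * x i - -(s : ℝ) = -((l : ℝ) * x i - s) := by ring
        rw [h6, abs_neg]
        exact hs
      · omega
    · left; exact h
    · right; left
      refine ⟨l.natAbs, ?_, ?_⟩
      · unfold posSet
        rw [mem_filter, mem_range]
        refine ⟨by omega, by omega, fun i => ?_⟩
        obtain ⟨s, hs⟩ := h3 i
        refine ⟨s, ?_⟩
        have h4 : ((l.natAbs : ℕ) : ℝ) = (l : ℝ) := by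
          have : ((l.natAbs : ℕ) : ℤ) = l := by omega
          have h5 : (((l.natAbs : ℕ) : ℤ) : ℝ) = ((l : ℤ) : ℝ) := by rw [this]
          simpa using h5
        rw [h4]
        exact hs
      · omega
  refine (card_le_card hsub).trans ((card_union_le _ _).trans ?_)
  have h1 := (card_union_le ((posSet x K τ).image (fun l : ℕ => (l : ℤ)))
      ((posSet x K τ).image (fun l : ℕ => -(l : ℤ))))
  have h2 : ((posSet x K τ).image (fun l : ℕ => (l : ℤ))).card ≤ (posSet x K τ).card := card_image_le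
  have h3 : ((posSet x K τ).image (fun l : ℕ => -(l : ℤ))).card ≤ (posSet x K τ).card := card_image_le
  rw [card_singleton]
  omega

lemma one_le_card_dualSet {d : ℕ} (x : Fin d → ℝ) {K : ℕ} (hK : 0 < K) {τ : ℝ} (hτ : 0 ≤ τ) :
    1 ≤ (dualSet x K τ).card := by
  classical
  apply Finset.card_pos.mpr
  refine ⟨0, ?_⟩
  unfold dualSet
  rw [mem_filter, mem_Ioo]
  refine ⟨⟨by omega, by omega⟩, fun i => ⟨0, ?_⟩⟩
  simpa using hτ

/-- The bound for one `x` (later `x_i = q ξ^i`). -/
lemma card_near {d H : ℕ} (hd : 0 < d) (hH : 0 < H) (x : Fin d → ℝ) {δ : ℝ} (hδ : 0 < δ)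
    (S : Finset (Fin d → ℤ))
    (hS : ∀ a ∈ S, (∀ i, |a i| ≤ (H : ℤ)) ∧ ∃ n : ℤ, |∑ i, (a i : ℝ) * x i - n| ≤ δ) :
    (S.card : ℝ) ≤ 192 * (12 * d) ^ d * (H : ℝ) ^ d *
      (δ * (1 + 2 * ((posSet x (Kof δ) (1 / (6 * d * H))).card : ℝ))) := by
  have hdR : (1 : ℝ) ≤ d := by exact_mod_cast hd
  have hHR : (1 : ℝ) ≤ H := by exact_mod_cast hH
  have hτ : (0 : ℝ) ≤ 1 / (6 * d * H) := by positivity
  have hdual := card_dualSet_le x (Kof δ) (1 / (6 * (d : ℝ) * H))
  have hdualR : ((dualSet x (Kof δ) (1 / (6 * (d : ℝ) * H))).card : ℝ)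
      ≤ 1 + 2 * ((posSet x (Kof δ) (1 / (6 * d * H))).card : ℝ) := by exact_mod_cast hdual
  by_cases h24 : 24 * δ ≤ 1
  · -- transference
    have hone : 1 ≤ 1 / (24 * δ) := by
      rw [le_div_iff₀ (by positivity)]; linarith
    have hfl : 1 ≤ ⌊1 / (24 * δ)⌋₊ := by
      rw [Nat.one_le_floor_iff]; exact hone
    have hKeq : Kof δ = ⌊1 / (24 * δ)⌋₊ := max_eq_right hfl
    have hKpos : 0 < Kof δ := by rw [hKeq]; exact hfl
    have hKle : (Kof δ : ℝ) ≤ 1 / (24 * δ) := by
      rw [hKeq]; exact Nat.floor_le (by positivity)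
    have hK24 : 24 * (Kof δ : ℝ) * δ ≤ 1 := by
      rw [le_div_iff₀ (by positivity)] at hKle
      linarith
    have hKge : 1 / (48 * δ) ≤ (Kof δ : ℝ) := by
      have h1 := Nat.lt_floor_add_one (1 / (24 * δ))
      rw [← hKeq] at h1
      have h2 : (1 : ℝ) ≤ Kof δ := by exact_mod_cast hKpos
      have h3 : 1 / (48 * δ) = (1 / (24 * δ)) / 2 := by field_simp; norm_num
      rw [h3]
      linarith
    have ht := transference hd hKpos hH x 0 hδ hK24 S (by simpa using hS)
    have h48 : (1 : ℝ) ≤ Kof δ * (48 * δ) := by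
      rw [div_le_iff₀ (by positivity)] at hKge
      exact hKge
    calc (S.card : ℝ) ≤ S.card * (Kof δ * (48 * δ)) := by
          have : (0 : ℝ) ≤ S.card := by positivity
          nlinarith
      _ = (S.card * Kof δ) * (48 * δ) := by ring
      _ ≤ (4 * (12 * d * H) ^ d * ((dualSet x (Kof δ) (1 / (6 * d * H))).card : ℝ)) * (48 * δ) := by
          gcongr
      _ ≤ (4 * (12 * d * H) ^ d * (1 + 2 * ((posSet x (Kof δ) (1 / (6 * d * H))).card : ℝ)))
            * (48 * δ) := by gcongr
      _ = _ := by rw [mul_pow (12 * (d : ℝ))]; ring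
  · push Not at h24
    have hbox : S ⊆ Avg.box d H := by
      intro a ha
      rw [mem_box]
      exact (hS a ha).1
    have hcard : (S.card : ℝ) ≤ (2 * (H : ℝ) + 1) ^ d := by
      have h1 := card_le_card hbox
      have h2 : (Avg.box d H).card = (2 * H + 1) ^ d := by
        unfold Avg.box
        rw [Fintype.card_piFinset_const, Int.card_Icc]
        congr 1
        omega
      rw [h2] at h1
      exact_mod_cast h1
    calc (S.card : ℝ) ≤ (2 * (H : ℝ) + 1) ^ d := hcard
      _ ≤ (12 * d * H) ^ d := by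
          apply pow_le_pow_left₀ (by positivity)
          nlinarith
      _ = (12 * (d : ℝ)) ^ d * (H : ℝ) ^ d * 1 := by rw [mul_pow, mul_one]
      _ ≤ (12 * (d : ℝ)) ^ d * (H : ℝ) ^ d * (192 *
          (δ * (1 + 2 * ((posSet x (Kof δ) (1 / (6 * d * H))).card : ℝ)))) := by
          apply mul_le_mul_of_nonneg_left _ (by positivity)
          have h1 : (0 : ℝ) ≤ ((posSet x (Kof δ) (1 / (6 * d * H))).card : ℝ) := by positivity
          nlinarith
      _ = _ := by ring

end Pool.Agent.Helper92.Field
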