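import Mathlib

/-! A real algebraic number `ξ` of degree `d` satisfies `max_i ‖n ξ^i‖ ≥ c n^(-1/(d-1))`. -/

set_option autoImplicit false

namespace Pool.Agent.Helper92.Field

open Polynomial IntermediateField

/-- The main estimate, for an abstract number field `K` with an integral primitive element `g` and an
embedding `ι0` sending `g` to the real number `θ`. -/
theorem simul_field {K : Type} [Field K] [Algebra ℚ K] [FiniteDimensional ℚ K] (g : K)
    (hgint : IsIntegral ℤ g) (hdeg : (minpoly ℚ g).natDegree = Module.finrank ℚ K)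
    (ι0 : K →ₐ[ℚ] ℂ) (θ : ℝ) (hι0g : ι0 g = (θ : ℂ)) :
    ∃ c : ℝ, 0 < c ∧ ∀ (n : ℕ) (η : ℝ), 0 < n → 0 ≤ η → η ≤ 1 →
      (∀ i : ℕ, i < Module.finrank ℚ K → ∃ v : ℤ, |(n : ℝ) * θ ^ i - v| ≤ η) →
      c ≤ n * η ^ (Module.finrank ℚ K - 1) := by
  classical
  set d := Module.finrank ℚ K with hd
  have hdpos : 0 < d := Module.finrank_pos
  have hminQ : minpoly ℚ g = (minpoly ℤ g).map (algebraMap ℤ ℚ) :=
    minpoly.isIntegrallyClosed_eq_field_fractions' ℚ hgint
  have hminZdeg : (minpoly ℤ g).natDegree = d := by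
    rw [hminQ, (minpoly.monic hgint).natDegree_map] at hdeg
    exact hdeg
  set B : K[X] := minpolyDiv ℤ g with hB
  have hBdeg : B.natDegree < d := by
    rw [hB, natDegree_minpolyDiv, hminZdeg]; omega
  -- evaluation of `B` at `θ` under an embedding
  have hroot : ∀ σ : K →ₐ[ℚ] ℂ,
      eval₂ ((σ : K →+* ℂ).comp (algebraMap ℤ K)) (θ : ℂ) (minpoly ℤ g) = 0 := by
    intro σ
    have h1 : ((σ : K →+* ℂ).comp (algebraMap ℤ K))
        = ((ι0 : K →+* ℂ).comp (algebraMap ℤ K)) := by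
      apply RingHom.ext_int
    rw [h1, ← hι0g]
    have h2 := hom_eval₂ (minpoly ℤ g) (algebraMap ℤ K) (ι0 : K →+* ℂ) g
    have h3 : eval₂ (algebraMap ℤ K) g (minpoly ℤ g) = 0 := minpoly.aeval ℤ g
    rw [h3, map_zero] at h2
    exact h2.symm
  have hEval : ∀ σ : K →ₐ[ℚ] ℂ, eval₂ (σ : K →+* ℂ) (θ : ℂ) B
      = if (σ : K →+* ℂ) g = (θ : ℂ) then
        (σ : K →+* ℂ) (aeval g (derivative (minpoly ℤ g))) else 0 := fun σ =>
    eval₂_minpolyDiv_of_eval₂_eq_zero (σ : K →+* ℂ) (hroot σ)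
  have huniq : ∀ σ : K →ₐ[ℚ] ℂ, σ g = (θ : ℂ) → σ = ι0 := by
    intro σ hσ
    have h1 := (Field.primitive_element_iff_minpoly_natDegree_eq ℚ g).mpr hdeg
    exact ((Field.primitive_element_iff_algHom_eq_of_eval ℚ ℂ (fun x => IsAlgClosed.splits _) g σ).mp
      h1 ι0 (hσ.trans hι0g.symm))
  have hder : aeval g (derivative (minpoly ℤ g)) ≠ 0 := by
    have hsep : (minpoly ℚ g).Separable := (minpoly.irreducible hgint.tower_top).separable
    have h1 := hsep.aeval_derivative_ne_zero (x := g) (minpoly.aeval ℚ g)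
    rw [hminQ, derivative_map, aeval_map_algebraMap] at h1
    exact h1
  set E0 : ℝ := ‖eval₂ (ι0 : K →+* ℂ) (θ : ℂ) B‖ with hE0
  have hE0pos : 0 < E0 := by
    rw [hE0, norm_pos_iff, hEval ι0]
    have h1 : (ι0 : K →+* ℂ) g = (θ : ℂ) := hι0g
    rw [if_pos h1]
    intro h2
    exact hder ((map_eq_zero_iff (ι0 : K →+* ℂ) (ι0 : K →+* ℂ).injective).mp h2)
  set M : ℝ := (∑ σ : K →ₐ[ℚ] ℂ, ∑ i ∈ Finset.range d, ‖σ (B.coeff i)‖) + 1 with hM
  have hM1 : 1 ≤ M := by
    have : 0 ≤ ∑ σ : K →ₐ[ℚ] ℂ, ∑ i ∈ Finset.range d, ‖σ (B.coeff i)‖ := by positivity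
    linarith
  have hMσ : ∀ σ : K →ₐ[ℚ] ℂ, ∑ i ∈ Finset.range d, ‖σ (B.coeff i)‖ ≤ M := by
    intro σ
    have h1 := Finset.single_le_sum
      (f := fun σ : K →ₐ[ℚ] ℂ => ∑ i ∈ Finset.range d, ‖σ (B.coeff i)‖)
      (fun τ _ => by positivity) (Finset.mem_univ σ)
    linarith
  have hMpos : 0 < M := by linarith
  set c1 : ℝ := 1 / ((E0 + M) * M ^ (d - 1)) with hc1
  set c2 : ℝ := (E0 / M) ^ (d - 1) with hc2
  refine ⟨min c1 c2, lt_min (by positivity) (by positivity), ?_⟩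
  intro n η hn hη0 hη1 hv
  have hnR : (1 : ℝ) ≤ n := by exact_mod_cast hn
  by_cases hsmall : E0 ≤ η * M
  · -- `η` is not small
    calc min c1 c2 ≤ c2 := min_le_right _ _
      _ ≤ η ^ (d - 1) := by
          rw [hc2]
          apply pow_le_pow_left₀ (by positivity)
          rw [div_le_iff₀ hMpos]
          exact hsmall
      _ ≤ n * η ^ (d - 1) := by
          have : 0 ≤ η ^ (d - 1) := by positivity
          nlinarith
  · push Not at hsmall
    -- choose nearest integers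
    choose! v hv' using hv
    set α : K := ∑ i ∈ Finset.range d, (v i : K) * B.coeff i with hα
    set er : ℕ → ℝ := fun i => (v i : ℝ) - n * θ ^ i with her
    have hσα : ∀ σ : K →ₐ[ℚ] ℂ, σ α = n * eval₂ (σ : K →+* ℂ) (θ : ℂ) B
        + ∑ i ∈ Finset.range d, (er i : ℂ) * σ (B.coeff i) := by
      intro σ
      rw [hα, map_sum, eval₂_eq_sum_range' _ hBdeg, Finset.mul_sum, ← Finset.sum_add_distrib]
      apply Finset.sum_congr rfl
      intro i _
      rw [map_mul, map_intCast]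
      have : ((v i : ℤ) : ℂ) = n * (θ : ℂ) ^ i + (er i : ℂ) := by
        rw [her]; push_cast; ring
      rw [this]
      simp only [RingHom.coe_coe]
      ring
    have herr : ∀ σ : K →ₐ[ℚ] ℂ,
        ‖∑ i ∈ Finset.range d, (er i : ℂ) * σ (B.coeff i)‖ ≤ η * M := by
      intro σ
      calc ‖∑ i ∈ Finset.range d, (er i : ℂ) * σ (B.coeff i)‖
          ≤ ∑ i ∈ Finset.range d, ‖(er i : ℂ) * σ (B.coeff i)‖ := norm_sum_le _ _
        _ ≤ ∑ i ∈ Finset.range d, η * ‖σ (B.coeff i)‖ := by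
            apply Finset.sum_le_sum
            intro i hi
            rw [Finset.mem_range] at hi
            rw [norm_mul, Complex.norm_real, Real.norm_eq_abs]
            have h1 := hv' i hi
            have h2 : |er i| ≤ η := by
              rw [her, abs_sub_comm]; exact h1
            gcongr
        _ = η * ∑ i ∈ Finset.range d, ‖σ (B.coeff i)‖ := by rw [Finset.mul_sum]
        _ ≤ η * M := by
            have := hMσ σ
            gcongr
    have hother : ∀ σ : K →ₐ[ℚ] ℂ, σ ≠ ι0 → ‖σ α‖ ≤ η * M := by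
      intro σ hσ
      rw [hσα σ, hEval σ]
      have h1 : ¬ ((σ : K →+* ℂ) g = (θ : ℂ)) := fun h => hσ (huniq σ h)
      rw [if_neg h1, mul_zero, zero_add]
      exact herr σ
    have hmain_le : ‖ι0 α‖ ≤ n * (E0 + M) := by
      rw [hσα ι0]
      calc ‖(n : ℂ) * eval₂ (ι0 : K →+* ℂ) (θ : ℂ) B
            + ∑ i ∈ Finset.range d, (er i : ℂ) * ι0 (B.coeff i)‖
          ≤ ‖(n : ℂ) * eval₂ (ι0 : K →+* ℂ) (θ : ℂ) B‖
            + ‖∑ i ∈ Finset.range d, (er i : ℂ) * ι0 (B.coeff i)‖ := norm_add_le _ _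
        _ ≤ n * E0 + η * M := by
            rw [norm_mul, Complex.norm_natCast]
            have := herr ι0
            linarith
        _ ≤ n * (E0 + M) := by
            have : η * M ≤ n * M := by
              apply mul_le_mul_of_nonneg_right _ hMpos.le
              linarith
            linarith
    have hα0 : α ≠ 0 := by
      intro h0
      have h1 := hσα ι0
      rw [h0, map_zero] at h1
      have h2 : ‖(n : ℂ) * eval₂ (ι0 : K →+* ℂ) (θ : ℂ) B‖ ≤ η * M := by
        have h3 : (n : ℂ) * eval₂ (ι0 : K →+* ℂ) (θ : ℂ) B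
            = -∑ i ∈ Finset.range d, (er i : ℂ) * ι0 (B.coeff i) := by
          linear_combination -h1
        rw [h3, norm_neg]
        exact herr ι0
      rw [norm_mul, Complex.norm_natCast] at h2
      have h4 : E0 ≤ n * E0 := by nlinarith
      linarith
    -- the norm is a nonzero integer
    have hint : IsIntegral ℤ α := by
      rw [hα]
      apply IsIntegral.sum
      intro i _
      apply IsIntegral.mul
      · exact isIntegral_algebraMap (R := ℤ) (x := v i)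
      · have h1 := coeff_minpolyDiv_mem_adjoin (R := ℤ) g i
        exact (adjoin_le_integralClosure hgint) h1
    have hnint : IsIntegral ℤ (Algebra.norm ℚ α) := Algebra.isIntegral_norm ℚ hint
    obtain ⟨N, hN⟩ := IsIntegrallyClosed.isIntegral_iff.mp hnint
    have hN0 : N ≠ 0 := by
      rintro rfl
      rw [map_zero] at hN
      exact (Algebra.norm_ne_zero_iff.mpr hα0) hN.symm
    have hNabs : (1 : ℝ) ≤ ‖(algebraMap ℚ ℂ) (Algebra.norm ℚ α)‖ := by
      rw [← hN]
      have h1 : (algebraMap ℚ ℂ) ((algebraMap ℤ ℚ) N) = ((N : ℤ) : ℂ) := by simp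
      rw [h1, Complex.norm_intCast]
      exact_mod_cast Int.one_le_abs hN0
    have hprod := Algebra.norm_eq_prod_embeddings ℚ ℂ α
    rw [hprod, norm_prod, ← Finset.mul_prod_erase Finset.univ _ (Finset.mem_univ ι0)] at hNabs
    have hcard : (Finset.univ.erase ι0).card = d - 1 := by
      rw [Finset.card_erase_of_mem (Finset.mem_univ _), Finset.card_univ, AlgHom.card]
    have hrest : ∏ σ ∈ Finset.univ.erase ι0, ‖σ α‖ ≤ (η * M) ^ (d - 1) := by
      rw [← hcard, ← Finset.prod_const]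
      apply Finset.prod_le_prod
      · intro σ _; exact norm_nonneg _
      · intro σ hσ
        exact hother σ (Finset.ne_of_mem_erase hσ)
    have hfinal : 1 ≤ (n * (E0 + M)) * (η * M) ^ (d - 1) := by
      refine hNabs.trans ?_
      apply mul_le_mul hmain_le hrest (Finset.prod_nonneg fun _ _ => norm_nonneg _) (by positivity)
    calc min c1 c2 ≤ c1 := min_le_left _ _
      _ ≤ n * η ^ (d - 1) := by
          rw [hc1, div_le_iff₀ (by positivity)]
          calc (1 : ℝ) ≤ (n * (E0 + M)) * (η * M) ^ (d - 1) := hfinal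
            _ = n * η ^ (d - 1) * ((E0 + M) * M ^ (d - 1)) := by rw [mul_pow]; ring

/-- The case of an algebraic integer. -/
theorem simul_integral {θ : ℝ} (hθ : IsIntegral ℤ θ) :
    ∃ c : ℝ, 0 < c ∧ ∀ (n : ℕ) (η : ℝ), 0 < n → 0 ≤ η → η ≤ 1 →
      (∀ i : ℕ, i < (minpoly ℚ θ).natDegree → ∃ v : ℤ, |(n : ℝ) * θ ^ i - v| ≤ η) →
      c ≤ n * η ^ ((minpoly ℚ θ).natDegree - 1) := by
  have hθQ : IsIntegral ℚ θ := hθ.tower_top
  have hgint : IsIntegral ℤ (AdjoinSimple.gen ℚ θ) := by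
    have h1 : IsIntegral ℤ (algebraMap ℚ⟮θ⟯ ℝ (AdjoinSimple.gen ℚ θ)) := by
      rw [AdjoinSimple.algebraMap_gen]; exact hθ
    exact (isIntegral_algebraMap_iff (algebraMap ℚ⟮θ⟯ ℝ).injective).mp h1
  have hfd : FiniteDimensional ℚ ℚ⟮θ⟯ := adjoin.finiteDimensional hθQ
  have hfin : Module.finrank ℚ ℚ⟮θ⟯ = (minpoly ℚ θ).natDegree := adjoin.finrank hθQ
  have h := simul_field (K := ℚ⟮θ⟯) (AdjoinSimple.gen ℚ θ) hgint
    (by rw [minpoly_gen, hfin])
    ((Complex.ofRealAm.restrictScalars ℚ).comp (val ℚ⟮θ⟯)) θ rfl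
  rw [hfin] at h
  exact h

/-- Simultaneous approximation to the powers of a real algebraic number. -/
theorem simul {ξ : ℝ} (hξ : IsAlgebraic ℚ ξ) :
    ∃ c : ℝ, 0 < c ∧ ∀ (n : ℕ) (η : ℝ), 0 < n → 0 ≤ η →
      (∀ i : ℕ, i < (minpoly ℚ ξ).natDegree → ∃ v : ℤ, |(n : ℝ) * ξ ^ i - v| ≤ η) →
      c ≤ n * η ^ ((minpoly ℚ ξ).natDegree - 1) := by
  have hξZ : IsAlgebraic ℤ ξ := (IsFractionRing.isAlgebraic_iff ℤ ℚ ℝ).mpr hξ
  obtain ⟨A, hA0, hAint⟩ := hξZ.exists_integral_multiple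
  have hAR : (A : ℝ) ≠ 0 := by exact_mod_cast hA0
  set θ : ℝ := (A : ℝ) * ξ with hθdef
  have hθ : IsIntegral ℤ θ := by
    have : A • ξ = θ := by rw [zsmul_eq_mul]
    rw [← this]; exact hAint
  have hdeg : (minpoly ℚ θ).natDegree = (minpoly ℚ ξ).natDegree := by
    have h1 : ℚ⟮θ⟯ = ℚ⟮ξ⟯ := by
      apply le_antisymm
      · rw [adjoin_simple_le_iff]
        have h2 : ((A : ℤ) : ℝ) ∈ ℚ⟮ξ⟯ := intCast_mem _ A
        exact mul_mem h2 (mem_adjoin_simple_self ℚ ξ)
      · rw [adjoin_simple_le_iff]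
        have h2 : ((A : ℤ) : ℝ)⁻¹ ∈ ℚ⟮θ⟯ := inv_mem (intCast_mem _ A)
        have h3 := mul_mem h2 (mem_adjoin_simple_self ℚ θ)
        have h4 : ((A : ℤ) : ℝ)⁻¹ * θ = ξ := by rw [hθdef]; field_simp
        rw [h4] at h3
        exact h3
    have h5 : IsIntegral ℚ ξ := hξ.isIntegral
    have h6 : IsIntegral ℚ θ := hθ.tower_top
    rw [← adjoin.finrank h6, ← adjoin.finrank h5, h1]
  obtain ⟨c, hc, hmain⟩ := simul_integral hθ
  rw [hdeg] at hmain
  set d := (minpoly ℚ ξ).natDegree with hd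
  set W : ℝ := (|(A : ℝ)| + 1) ^ d with hW
  have hA1 : 1 ≤ |(A : ℝ)| + 1 := by have := abs_nonneg (A : ℝ); linarith
  have hW1 : 1 ≤ W := one_le_pow₀ hA1
  have hWpos : 0 < W := by linarith
  refine ⟨min c 1 / W ^ (d - 1), by positivity, ?_⟩
  intro n η hn hη hv
  have hnR : (1 : ℝ) ≤ n := by exact_mod_cast hn
  rw [div_le_iff₀ (by positivity)]
  by_cases hsmall : W * η ≤ 1
  · have h1 := hmain n (W * η) hn (by positivity) hsmall ?_
    · calc min c 1 ≤ c := min_le_left _ _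
        _ ≤ n * (W * η) ^ (d - 1) := h1
        _ = _ := by rw [mul_pow]; ring
    · intro i hi
      obtain ⟨v, hv⟩ := hv i hi
      refine ⟨A ^ i * v, ?_⟩
      have h2 : (n : ℝ) * θ ^ i - ((A ^ i * v : ℤ) : ℝ) = (A : ℝ) ^ i * ((n : ℝ) * ξ ^ i - v) := by
        rw [hθdef]; push_cast; ring
      rw [h2, abs_mul]
      apply mul_le_mul _ hv (abs_nonneg _) hWpos.le
      rw [abs_pow]
      calc |(A : ℝ)| ^ i ≤ (|(A : ℝ)| + 1) ^ i :=
            pow_le_pow_left₀ (abs_nonneg _) (by linarith) i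
        _ ≤ (|(A : ℝ)| + 1) ^ d := pow_le_pow_right₀ hA1 hi.le
  · push Not at hsmall
    calc min c 1 ≤ 1 := min_le_right _ _
      _ ≤ (W * η) ^ (d - 1) := one_le_pow₀ hsmall.le
      _ ≤ n * (W * η) ^ (d - 1) := by
          have : 0 ≤ (W * η) ^ (d - 1) := by positivity
          nlinarith
      _ = _ := by rw [mul_pow]; ring

end Pool.Agent.Helper92.Field
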