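import Mathlib
import Pool.Agent.Helper92.Field.PerQ
import Pool.Agent.Helper92.Field.Simul

/-! Lang's inequality on average over the elements of a fixed real number field. -/

set_option autoImplicit false

namespace Pool.Agent.Helper92.Field

open Finset Pool.Agent.Helper92.Avg

lemma phi_eq {ε : ℝ} {q : ℕ} (hq : 2 ≤ q) :
    phi ε q = 1 / ((q : ℝ) * (Real.log (q : ℝ)) ^ (1 + ε)) := by
  unfold phi
  rw [max_eq_left hq]

lemma sum_phi_le {ε : ℝ} (hε : 0 < ε) (s : Finset ℕ) : ∑ q ∈ s, phi ε q ≤ Zsum ε :=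
  (summable_phi hε).sum_le_tsum s (fun q _ => (phi_pos ε q).le)

/-- The error term tends to zero. -/
lemma error_small {d : ℕ} (hd : 2 ≤ d) {ε κ c c1 C' : ℝ} (hε : 0 < ε) (hκ : 0 < κ) (hc : 0 < c)
    (hc1 : 0 < c1) (hC' : 0 < C') :
    ∀ᶠ H : ℕ in Filter.atTop, 1 ≤ c1 * (3 * d * H) ^ (d - 1) ∧
      2 * ((⌊(H : ℝ) ^ ((d : ℝ) - 1 - κ)⌋₊ : ℝ) / 24 *
        (C' * ((⌊(H : ℝ) ^ ((d : ℝ) - 1 - κ)⌋₊ : ℝ) ^ (3 + ε) / c) ^ (2 * (κ / (4 * (d * (3 + ε)))))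
          / (c1 * (3 * d * H) ^ (d - 1)))) ≤ c := by
  have hdR : (2 : ℝ) ≤ d := by exact_mod_cast hd
  set W : ℝ := d * (3 + ε) with hW
  have hWpos : 0 < W := by positivity
  set ε' : ℝ := κ / (4 * W) with hε'
  have hε'pos : 0 < ε' := by positivity
  set C2 : ℝ := C' * c ^ (-(2 * ε')) / (12 * (c1 * (3 * d) ^ (d - 1))) with hC2
  have hC2pos : 0 < C2 := by positivity
  have htend : Filter.Tendsto (fun H : ℕ => C2 * (H : ℝ) ^ (-(κ / 2))) Filter.atTop (nhds 0) := by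
    have h1 : Filter.Tendsto (fun H : ℕ => (H : ℝ) ^ (-(κ / 2))) Filter.atTop (nhds 0) :=
      (tendsto_rpow_neg_atTop (by positivity)).comp tendsto_natCast_atTop_atTop
    have h2 := h1.const_mul C2
    rw [mul_zero] at h2
    exact h2
  have hev := htend.eventually (ge_mem_nhds hc)
  obtain ⟨H0, hH0⟩ := exists_nat_ge (1 / c1)
  filter_upwards [hev, Filter.eventually_ge_atTop (max H0 1)] with H hH hHge
  have hH1 : 1 ≤ H := (le_max_right _ _).trans hHge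
  have hHH0 : H0 ≤ H := (le_max_left _ _).trans hHge
  have hHR : (1 : ℝ) ≤ H := by exact_mod_cast hH1
  have hHpos : (0 : ℝ) < H := by linarith
  constructor
  · have h1 : (1 : ℝ) / c1 ≤ H := hH0.trans (by exact_mod_cast hHH0)
    rw [div_le_iff₀ hc1] at h1
    have h2 : (H : ℝ) ≤ (3 * d * H) ^ (d - 1) := by
      have h3 : (1 : ℝ) ≤ 3 * d * H := by nlinarith
      calc (H : ℝ) ≤ 3 * d * H := by nlinarith
        _ = (3 * (d : ℝ) * H) ^ 1 := (pow_one _).symm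
        _ ≤ (3 * (d : ℝ) * H) ^ (d - 1) := pow_le_pow_right₀ h3 (by omega)
    nlinarith
  · set Q : ℝ := (⌊(H : ℝ) ^ ((d : ℝ) - 1 - κ)⌋₊ : ℝ) with hQ
    have hQ0 : 0 ≤ Q := by positivity
    have hQle : Q ≤ (H : ℝ) ^ ((d : ℝ) - 1 - κ) := Nat.floor_le (by positivity)
    have hQd : Q ≤ (H : ℝ) ^ (d : ℝ) :=
      hQle.trans (Real.rpow_le_rpow_of_exponent_le hHR (by linarith))
    have hX : (Q ^ (3 + ε) / c) ^ (2 * ε') ≤ (H : ℝ) ^ (κ / 2) * c ^ (-(2 * ε')) := by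
      calc (Q ^ (3 + ε) / c) ^ (2 * ε') ≤ (((H : ℝ) ^ (d : ℝ)) ^ (3 + ε) / c) ^ (2 * ε') := by
            apply Real.rpow_le_rpow (by positivity) _ (by positivity)
            apply div_le_div_of_nonneg_right _ hc.le
            exact Real.rpow_le_rpow hQ0 hQd (by linarith)
        _ = (H : ℝ) ^ (κ / 2) * c ^ (-(2 * ε')) := by
            rw [← Real.rpow_mul hHpos.le, ← hW, Real.div_rpow (by positivity) hc.le,
              ← Real.rpow_mul hHpos.le, Real.rpow_neg hc.le, div_eq_mul_inv]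
            congr 2
            rw [hε']
            field_simp
            norm_num
    have hpow : ((3 : ℝ) * d * H) ^ (d - 1) = (3 * d) ^ (d - 1) * (H : ℝ) ^ ((d : ℝ) - 1) := by
      rw [mul_pow]
      congr 1
      rw [← Real.rpow_natCast]
      congr 1
      rw [Nat.cast_sub (by omega)]
      push_cast
      ring
    calc 2 * (Q / 24 * (C' * (Q ^ (3 + ε) / c) ^ (2 * ε') / (c1 * (3 * d * H) ^ (d - 1))))
        ≤ 2 * ((H : ℝ) ^ ((d : ℝ) - 1 - κ) / 24 * (C' * ((H : ℝ) ^ (κ / 2) * c ^ (-(2 * ε')))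
            / (c1 * (3 * d * H) ^ (d - 1)))) := by
          gcongr
      _ = C2 * ((H : ℝ) ^ ((d : ℝ) - 1 - κ) * (H : ℝ) ^ (κ / 2) / (H : ℝ) ^ ((d : ℝ) - 1)) := by
          rw [hpow, hC2]
          field_simp
          norm_num
      _ = C2 * (H : ℝ) ^ (-(κ / 2)) := by
          rw [← Real.rpow_add hHpos, ← Real.rpow_sub hHpos]
          congr 2
          ring
      _ ≤ c := hH

theorem field_average {ξ : ℝ} {d : ℕ} (hd : 2 ≤ d) (hξ : (minpoly ℚ ξ).natDegree = d) {ε : ℝ}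
    (hε : 0 < ε) :
    ∃ C : ℝ, ∀ c : ℝ, 0 < c → ∀ κ : ℝ, 0 < κ → ∀ᶠ H : ℕ in Filter.atTop,
      (Set.ncard {a : Fin d → ℤ | (∀ i, |a i| ≤ (H : ℤ)) ∧ ∃ (p : ℤ) (q : ℕ), 2 ≤ q ∧
        (q : ℝ) ≤ (H : ℝ) ^ ((d : ℝ) - 1 - κ) ∧
        |∑ i, (a i : ℝ) * ξ ^ (i : ℕ) - (p : ℝ) / (q : ℝ)|
          ≤ c / ((q : ℝ) ^ 2 * (Real.log (q : ℝ)) ^ (1 + ε))} : ℝ)
        ≤ C * c * (2 * (H : ℝ) + 1) ^ d := by
  classical
  have halg : IsAlgebraic ℚ ξ := by
    by_contra h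
    have h1 : minpoly ℚ ξ = 0 := minpoly.eq_zero (fun h2 => h h2.isAlgebraic)
    rw [h1] at hξ
    simp at hξ
    omega
  obtain ⟨c1, hc1, hsim⟩ := simul halg
  rw [hξ] at hsim
  have hdR : (2 : ℝ) ≤ d := by exact_mod_cast hd
  have hdpos : 0 < d := by omega
  have hZ0 := Zsum_nonneg ε
  set C3 : ℝ := 192 * (12 * d) ^ d with hC3
  have hC3pos : 0 < C3 := by positivity
  refine ⟨C3 * (Zsum ε + 1), ?_⟩
  intro c hc κ hκ
  obtain ⟨C', hC', hpairs⟩ := sum_pairs (ε := κ / (4 * (d * (3 + ε)))) (by positivity)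
  filter_upwards [error_small hd hε hκ hc hc1 hC', Filter.eventually_ge_atTop 1] with H hH hH1
  obtain ⟨hG1, hE⟩ := hH
  have hHR : (1 : ℝ) ≤ H := by exact_mod_cast hH1
  set Q : ℕ := ⌊(H : ℝ) ^ ((d : ℝ) - 1 - κ)⌋₊ with hQ
  set G : ℝ := c1 * (3 * d * H) ^ (d - 1) with hG
  set τ : ℝ := 1 / (6 * d * H) with hτ
  have hτpos : 0 < τ := by positivity
  set xq : ℕ → Fin d → ℝ := fun q i => (q : ℝ) * ξ ^ (i : ℕ) with hxq
  set Sq : ℕ → Finset (Fin d → ℤ) := fun q => (Avg.box d H).filter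
    (fun a => ∃ n : ℤ, |∑ i, (a i : ℝ) * xq q i - n| ≤ c * phi ε q) with hSq
  -- covering
  have hcover : {a : Fin d → ℤ | (∀ i, |a i| ≤ (H : ℤ)) ∧ ∃ (p : ℤ) (q : ℕ), 2 ≤ q ∧
        (q : ℝ) ≤ (H : ℝ) ^ ((d : ℝ) - 1 - κ) ∧
        |∑ i, (a i : ℝ) * ξ ^ (i : ℕ) - (p : ℝ) / (q : ℝ)|
          ≤ c / ((q : ℝ) ^ 2 * (Real.log (q : ℝ)) ^ (1 + ε))}
      ⊆ (((Icc 2 Q).biUnion Sq : Finset (Fin d → ℤ)) : Set (Fin d → ℤ)) := by
    rintro a ⟨hbox, p, q, hq2, hqQ, hle⟩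
    rw [Finset.mem_coe, mem_biUnion]
    refine ⟨q, ?_, ?_⟩
    · rw [mem_Icc]; exact ⟨hq2, Nat.le_floor hqQ⟩
    · rw [hSq]
      simp only
      rw [mem_filter, mem_box]
      refine ⟨hbox, p, ?_⟩
      have hqR : (0 : ℝ) < q := by have : 0 < q := by omega
                                   exact_mod_cast this
      have h1 : ∑ i, (a i : ℝ) * xq q i - p = q * (∑ i, (a i : ℝ) * ξ ^ (i : ℕ) - (p : ℝ) / q) := by
        rw [mul_sub, Finset.mul_sum]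
        have h2 : (q : ℝ) * ((p : ℝ) / q) = p := by field_simp
        rw [h2]
        congr 1
        apply Finset.sum_congr rfl
        intro i _
        rw [hxq]
        ring
      rw [h1, abs_mul, abs_of_pos hqR]
      have hlog : 0 < Real.log (q : ℝ) := Real.log_pos (by exact_mod_cast hq2)
      have hlogp := Real.rpow_pos_of_pos hlog (1 + ε)
      calc (q : ℝ) * |∑ i, (a i : ℝ) * ξ ^ (i : ℕ) - (p : ℝ) / q|
          ≤ q * (c / ((q : ℝ) ^ 2 * (Real.log (q : ℝ)) ^ (1 + ε))) := by gcongr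
        _ = c * phi ε q := by rw [phi_eq hq2]; field_simp
  have hncard := Set.ncard_le_ncard hcover (Finset.finite_toSet _)
  rw [Set.ncard_coe_finset] at hncard
  have hS : ∀ q, ((Sq q).card : ℝ) ≤ C3 * (H : ℝ) ^ d *
      ((c * phi ε q) * (1 + 2 * ((posSet (xq q) (Kof (c * phi ε q)) τ).card : ℝ))) := by
    intro q
    apply card_near hdpos hH1 (xq q) (mul_pos hc (phi_pos ε q)) (Sq q)
    intro a ha
    rw [hSq] at ha
    simp only at ha
    rw [mem_filter, mem_box] at ha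
    exact ha
  -- the secondary sum
  set W : ℕ → Finset ℕ := fun q => posSet (xq q) (Kof (c * phi ε q)) τ with hWdef
  have hWprop : ∀ q, 2 ≤ q → ∀ l ∈ W q, 0 < l ∧ 24 * (c * phi ε q) * l ≤ 1 ∧
      ∀ i : Fin d, ∃ s : ℤ, |((q * l : ℕ) : ℝ) * ξ ^ (i : ℕ) - s| ≤ τ := by
    intro q hq l hl
    rw [hWdef] at hl
    simp only [posSet] at hl
    rw [mem_filter, mem_range] at hl
    obtain ⟨h1, h2, h3⟩ := hl
    refine ⟨h2, ?_, ?_⟩
    · unfold Kof at h1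
      have h4 : l < ⌊1 / (24 * (c * phi ε q))⌋₊ := by
        rcases lt_max_iff.mp h1 with h | h
        · omega
        · exact h
      have hδ : 0 < c * phi ε q := mul_pos hc (phi_pos ε q)
      have h5 : (l : ℝ) ≤ 1 / (24 * (c * phi ε q)) := by
        have h6 := Nat.floor_le (a := 1 / (24 * (c * phi ε q))) (by positivity)
        have h7 : (l : ℝ) ≤ (⌊1 / (24 * (c * phi ε q))⌋₊ : ℝ) := by exact_mod_cast h4.le
        linarith
      rw [le_div_iff₀ (by positivity)] at h5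
      linarith
    · intro i
      obtain ⟨s, hs⟩ := h3 i
      refine ⟨s, ?_⟩
      have h4 : ((q * l : ℕ) : ℝ) * ξ ^ (i : ℕ) - s = (l : ℝ) * xq q i - s := by
        rw [hxq]; push_cast; ring
      rw [h4]
      exact hs
  set P : Finset (ℕ × ℕ) := ((Icc 2 Q).sigma W).map (Equiv.sigmaEquivProd ℕ ℕ).toEmbedding with hP
  set 𝒩 : Set ℕ := {n | 0 < n ∧ ∀ i : Fin d, ∃ s : ℤ, |(n : ℝ) * ξ ^ (i : ℕ) - s| ≤ τ} with h𝒩
  set X : ℝ := (Q : ℝ) ^ (3 + ε) / c with hX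
  have hX0 : 0 ≤ X := by positivity
  have h2τ : 2 * τ = 1 / (3 * d * H) := by rw [hτ]; field_simp; norm_num
  have hGn : ∀ n : ℕ, 0 < n → (∀ i : ℕ, i < d → ∃ v : ℤ, |(n : ℝ) * ξ ^ i - v| ≤ 2 * τ) →
      G ≤ n := by
    intro n hn hv
    have h1 := hsim n (2 * τ) hn (by positivity) hv
    rw [h2τ, one_div, inv_pow, ← div_eq_mul_inv, le_div_iff₀ (by positivity)] at h1
    exact h1
  have hN1 : ∀ n ∈ 𝒩, G ≤ (n : ℝ) := by
    rintro n ⟨hn, hv⟩
    apply hGn n hn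
    intro i hi
    obtain ⟨s, hs⟩ := hv ⟨i, hi⟩
    exact ⟨s, by linarith⟩
  have hN2 : ∀ n ∈ 𝒩, ∀ n' ∈ 𝒩, n < n' → G ≤ (n' : ℝ) - n := by
    rintro n ⟨hn, hv⟩ n' ⟨hn', hv'⟩ hlt
    have h1 := hGn (n' - n) (by omega) ?_
    · rw [Nat.cast_sub hlt.le] at h1; exact h1
    · intro i hi
      obtain ⟨s, hs⟩ := hv ⟨i, hi⟩
      obtain ⟨s', hs'⟩ := hv' ⟨i, hi⟩
      refine ⟨s' - s, ?_⟩
      rw [Nat.cast_sub hlt.le]
      push_cast
      have h2 : ((n' : ℝ) - n) * ξ ^ i - (s' - s) = ((n' : ℝ) * ξ ^ i - s') - (n * ξ ^ i - s) := by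
        ring
      rw [h2]
      refine (abs_sub _ _).trans ?_
      simp only at hs hs'
      linarith
  have hPprop : ∀ x ∈ P, x.1 * x.2 ∈ 𝒩 ∧ ((x.1 * x.2 : ℕ) : ℝ) ≤ X := by
    intro x hx
    rw [hP, Finset.mem_map] at hx
    obtain ⟨⟨q, l⟩, hql, rfl⟩ := hx
    rw [mem_sigma, mem_Icc] at hql
    simp only at hql
    obtain ⟨⟨hq2, hqQ⟩, hl⟩ := hql
    obtain ⟨h1, h2, h3⟩ := hWprop q hq2 l hl
    simp only [Equiv.coe_toEmbedding, Equiv.sigmaEquivProd_apply]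
    refine ⟨⟨by positivity, h3⟩, ?_⟩
    rw [hX, le_div_iff₀ hc]
    have hqR : (2 : ℝ) ≤ q := by exact_mod_cast hq2
    have hlog : 0 < Real.log (q : ℝ) := Real.log_pos (by linarith)
    have hlogp := Real.rpow_pos_of_pos hlog (1 + ε)
    rw [phi_eq hq2] at h2
    have h4 : c * l ≤ q * (Real.log (q : ℝ)) ^ (1 + ε) := by
      have h5 : 24 * (c * (1 / ((q : ℝ) * (Real.log (q : ℝ)) ^ (1 + ε)))) * l
          = 24 * (c * l) / ((q : ℝ) * (Real.log (q : ℝ)) ^ (1 + ε)) := by ring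
      rw [h5, div_le_one (by positivity)] at h2
      have h6 : 0 ≤ c * l := by positivity
      linarith
    have h7 : (Real.log (q : ℝ)) ^ (1 + ε) ≤ (q : ℝ) ^ (1 + ε) :=
      Real.rpow_le_rpow hlog.le ((Real.log_le_sub_one_of_pos (by linarith)).trans (by linarith))
        (by linarith)
    have h8 : (q : ℝ) ^ (3 + ε) = (q : ℝ) * (q * (q : ℝ) ^ (1 + ε)) := by
      rw [show 3 + ε = 1 + (1 + (1 + ε)) by ring, Real.rpow_add (by linarith),
        Real.rpow_add (by linarith), Real.rpow_one]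
    push_cast
    calc (q : ℝ) * l * c = q * (c * l) := by ring
      _ ≤ q * (q * (Real.log (q : ℝ)) ^ (1 + ε)) := by gcongr
      _ ≤ q * (q * (q : ℝ) ^ (1 + ε)) := by gcongr
      _ = (q : ℝ) ^ (3 + ε) := h8.symm
      _ ≤ (Q : ℝ) ^ (3 + ε) := by
          apply Real.rpow_le_rpow (by linarith) (by exact_mod_cast hqQ) (by linarith)
  have hpair := hpairs 𝒩 G X hG1 hX0 hN1 hN2 P hPprop
  have hsec : ∑ q ∈ Icc 2 Q, (c * phi ε q) * ((W q).card : ℝ)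
      ≤ (Q : ℝ) / 24 * ∑ x ∈ P, 1 / ((x.1 * x.2 : ℕ) : ℝ) := by
    rw [hP, Finset.sum_map, Finset.sum_sigma, Finset.mul_sum]
    apply Finset.sum_le_sum
    intro q hq
    rw [mem_Icc] at hq
    have h0 : (c * phi ε q) * ((W q).card : ℝ) = ∑ l ∈ W q, (c * phi ε q) := by
      rw [sum_const, nsmul_eq_mul, mul_comm]
    rw [h0, Finset.mul_sum]
    apply Finset.sum_le_sum
    intro l hl
    obtain ⟨h1, h2, h3⟩ := hWprop q hq.1 l hl
    simp only [Equiv.coe_toEmbedding, Equiv.sigmaEquivProd_apply]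
    have hqR : (2 : ℝ) ≤ q := by exact_mod_cast hq.1
    have hlR : (0 : ℝ) < l := by exact_mod_cast h1
    have hqQ : (q : ℝ) ≤ Q := by exact_mod_cast hq.2
    push_cast
    rw [div_mul_div_comm, mul_one, le_div_iff₀ (by positivity)]
    calc c * phi ε q * (24 * ((q : ℝ) * l)) = q * (24 * (c * phi ε q) * l) := by ring
      _ ≤ q * 1 := by gcongr
      _ ≤ Q := by linarith
  have hfinal : (((Icc 2 Q).biUnion Sq).card : ℝ)
      ≤ C3 * (H : ℝ) ^ d * (c * Zsum ε + c) := by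
    calc (((Icc 2 Q).biUnion Sq).card : ℝ) ≤ ∑ q ∈ Icc 2 Q, ((Sq q).card : ℝ) := by
          exact_mod_cast card_biUnion_le
      _ ≤ ∑ q ∈ Icc 2 Q, C3 * (H : ℝ) ^ d * ((c * phi ε q) * (1 + 2 * ((W q).card : ℝ))) :=
          Finset.sum_le_sum fun q _ => hS q
      _ = C3 * (H : ℝ) ^ d * (c * ∑ q ∈ Icc 2 Q, phi ε q
            + 2 * ∑ q ∈ Icc 2 Q, (c * phi ε q) * ((W q).card : ℝ)) := by
          rw [← Finset.mul_sum, Finset.mul_sum (Icc 2 Q) (fun q => phi ε q) c,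
            Finset.mul_sum (Icc 2 Q) _ 2, ← Finset.sum_add_distrib]
          congr 1
          apply Finset.sum_congr rfl
          intro q _
          ring
      _ ≤ C3 * (H : ℝ) ^ d * (c * Zsum ε + 2 * ((Q : ℝ) / 24 * (C' * X ^ (2 *
            (κ / (4 * (d * (3 + ε))))) / G))) := by
          have h1 := sum_phi_le hε (Icc 2 Q)
          have h2 := hsec.trans (mul_le_mul_of_nonneg_left hpair (by positivity))
          gcongr
      _ ≤ C3 * (H : ℝ) ^ d * (c * Zsum ε + c) := by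
          gcongr
  calc _ ≤ (((Icc 2 Q).biUnion Sq).card : ℝ) := by exact_mod_cast hncard
    _ ≤ C3 * (H : ℝ) ^ d * (c * Zsum ε + c) := hfinal
    _ = C3 * (Zsum ε + 1) * c * (H : ℝ) ^ d := by ring
    _ ≤ C3 * (Zsum ε + 1) * c * (2 * (H : ℝ) + 1) ^ d := by
        gcongr
        linarith

end Pool.Agent.Helper92.Field
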